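import Pool.Agent.H224R2.Mah.Defs

/-!
# E2: comparison of the two integrals (symmetric Mahler)
-/

namespace Pool.Agent.H224R2.Mah

open MeasureTheory Set Filter Topology
open scoped ENNReal RealInnerProductSpace

/-- product integrals over `Fin n` -/
theorem E2_lintegral_fin_prod {n : ℕ} {α : Type*} [MeasurableSpace α] (μ : Fin n → Measure α)
    [∀ i, SigmaFinite (μ i)] (f : Fin n → α → ℝ≥0∞) (hf : ∀ i, Measurable (f i)) :
    ∫⁻ x : Fin n → α, ∏ i, f i (x i) ∂(Measure.pi μ) = ∏ i, ∫⁻ x, f i x ∂(μ i) := by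
  induction n with
  | zero => simp
  | succ n n_ih =>
      calc
        _ = ∫⁻ x : α × (Fin n → α),
            f 0 x.1 * ∏ i : Fin n, f (Fin.succ i) (x.2 i)
            ∂((μ 0).prod (Measure.pi (fun i ↦ μ i.succ))) := by
          rw [← ((measurePreserving_piFinSuccAbove μ 0).symm).lintegral_comp_emb
            (MeasurableEquiv.measurableEmbedding _)]
          simp_rw [MeasurableEquiv.piFinSuccAbove_symm_apply, Fin.insertNthEquiv,
            Fin.prod_univ_succ, Fin.insertNth_zero, Equiv.coe_fn_mk, Fin.cons_succ,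
            Fin.zero_succAbove, cast_eq, Fin.cons_zero]
        _ = (∫⁻ x, f 0 x ∂μ 0)
            * ∏ i : Fin n, ∫⁻ x, f (Fin.succ i) x ∂(μ i.succ) := by
          rw [← n_ih (fun i => μ i.succ) (fun i => f i.succ) (fun i => hf _)]
          exact lintegral_prod_mul (hf 0).aemeasurable (Finset.measurable_prod _ (fun i _ =>
            (hf _).comp (measurable_pi_apply i))).aemeasurable
        _ = ∏ i, ∫⁻ x, f i x ∂(μ i) := by rw [Fin.prod_univ_succ]

section
variable {n : ℕ} {ι : Type} [Fintype ι]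

omit [Fintype ι] in
/-- the integral of `∏ A - ∏ B` over `P^n` -/
theorem E2_prod (P : Set ℂ) (hP : MeasurableSet P) (A B : ι → ℂ → ℝ)
    (hA : ∀ j, Measurable (A j)) (hB : ∀ j, Measurable (B j))
    (h0 : ∀ j, ∀ u ∈ P, 0 ≤ B j u) (hAB : ∀ j, ∀ u ∈ P, B j u ≤ A j u)
    (α β : ℝ) (hβ : 0 ≤ β) (hαβ : β ≤ α)
    (hα : ∀ j, ∫⁻ u in P, ENNReal.ofReal (A j u) = ENNReal.ofReal α)
    (hβ' : ∀ j, ENNReal.ofReal β ≤ ∫⁻ u in P, ENNReal.ofReal (B j u)) (σ : Fin n → ι) :
    ∫⁻ u in Set.pi univ (fun _ : Fin n => P),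
      ENNReal.ofReal (∏ k, A (σ k) (u k) - ∏ k, B (σ k) (u k)) ≤ ENNReal.ofReal (α ^ n - β ^ n) := by
  have hα0 : 0 ≤ α := hβ.trans hαβ
  have hset : MeasurableSet (Set.pi univ (fun _ : Fin n => P)) :=
    MeasurableSet.univ_pi fun _ => hP
  have hprod : ∀ C : ι → ℂ → ℝ, (∀ j, Measurable (C j)) →
      ∫⁻ u in Set.pi univ (fun _ : Fin n => P), ∏ k, ENNReal.ofReal (C (σ k) (u k)) =
        ∏ k, ∫⁻ u in P, ENNReal.ofReal (C (σ k) u) := by
    intro C hC
    rw [volume_pi, Measure.restrict_pi_pi]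
    exact E2_lintegral_fin_prod _ (fun k u => ENNReal.ofReal (C (σ k) u))
      (fun k => (hC (σ k)).ennreal_ofReal)
  have hmB : Measurable (fun u : Fin n → ℂ => ∏ k, ENNReal.ofReal (B (σ k) (u k))) :=
    Finset.measurable_prod _ fun k _ => ((hB (σ k)).comp (measurable_pi_apply k)).ennreal_ofReal
  have h1 : ∫⁻ u in Set.pi univ (fun _ : Fin n => P),
      ENNReal.ofReal (∏ k, A (σ k) (u k) - ∏ k, B (σ k) (u k)) =
      ∫⁻ u in Set.pi univ (fun _ : Fin n => P),
        (∏ k, ENNReal.ofReal (A (σ k) (u k)) - ∏ k, ENNReal.ofReal (B (σ k) (u k))) := by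
    refine setLIntegral_congr_fun hset fun u hu => ?_
    have hu' : ∀ k, u k ∈ P := fun k => hu k (mem_univ k)
    have hB0 : 0 ≤ ∏ k, B (σ k) (u k) := Finset.prod_nonneg fun k _ => h0 _ _ (hu' k)
    show ENNReal.ofReal _ = _
    rw [ENNReal.ofReal_sub _ hB0, ENNReal.ofReal_prod_of_nonneg (fun k _ => h0 _ _ (hu' k)),
      ENNReal.ofReal_prod_of_nonneg
        (fun k _ => (h0 _ _ (hu' k)).trans (hAB _ _ (hu' k)))]
  have hle : ∀ j, ∫⁻ u in P, ENNReal.ofReal (B j u) ≤ ENNReal.ofReal α := by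
    intro j
    rw [← hα j]
    refine setLIntegral_mono' hP fun u hu => ENNReal.ofReal_le_ofReal (hAB j u hu)
  have hfin : ∫⁻ u in Set.pi univ (fun _ : Fin n => P), ∏ k, ENNReal.ofReal (B (σ k) (u k)) ≠ ⊤ := by
    rw [hprod B hB]
    refine ENNReal.prod_ne_top fun k _ => ?_
    exact ne_top_of_le_ne_top ENNReal.ofReal_ne_top (hle _)
  rw [h1, lintegral_sub hmB hfin, hprod A hA, hprod B hB]
  · rw [Finset.prod_congr rfl (fun k _ => hα (σ k)), Finset.prod_const, Finset.card_univ,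
      Fintype.card_fin, ENNReal.ofReal_sub _ (pow_nonneg hβ n), ENNReal.ofReal_pow hα0,
      ENNReal.ofReal_pow hβ]
    refine tsub_le_tsub_left ?_ _
    calc ENNReal.ofReal β ^ n = ∏ _k : Fin n, ENNReal.ofReal β := by simp
      _ ≤ _ := Finset.prod_le_prod' fun k _ => hβ' (σ k)
  · refine (ae_restrict_iff' hset).mpr (Eventually.of_forall fun u hu => ?_)
    have hu' : ∀ k, u k ∈ P := fun k => hu k (mem_univ k)
    exact Finset.prod_le_prod' fun k _ => ENNReal.ofReal_le_ofReal (hAB _ _ (hu' k))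

theorem E2_measurable_uu (v : Fin n → ℝ) : Measurable (fun z : Fin n → ℂ => uu v z) := by
  unfold uu
  exact Finset.measurable_sum _ fun k _ => (measurable_pi_apply k).const_mul _

/-- E2. Comparison of the two integrals, with E1 and C2 as hypotheses. -/
theorem E2_compare_of
    (hE1 : ∀ (c : ι → ℝ) (a : ι → Fin n → ℝ), (n.factorial : ℝ) * (mat c a).det =
      ∑ σ : Fin n → ι, (Matrix.of fun k => a (σ k)).det ^ 2 * ∏ k, c (σ k))
    (hC2 : ∀ (b : Fin n → Fin n → ℝ) (_ : (Matrix.of b).det ≠ 0) (F : (Fin n → ℂ) → ℝ≥0∞),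
      ∫⁻ z, F (fun k => uu (b k) z) * ENNReal.ofReal ((Matrix.of b).det ^ 2) = ∫⁻ u, F u)
    (P : Set ℂ) (hP : MeasurableSet P) (a : ι → Fin n → ℝ) (A B : ι → ℂ → ℝ)
    (hA : ∀ j, Measurable (A j)) (hB : ∀ j, Measurable (B j))
    (h0 : ∀ j, ∀ u ∈ P, 0 ≤ B j u) (hAB : ∀ j, ∀ u ∈ P, B j u ≤ A j u)
    (α β : ℝ) (hβ : 0 ≤ β) (hαβ : β ≤ α)
    (hα : ∀ j, ∫⁻ u in P, ENNReal.ofReal (A j u) = ENNReal.ofReal α)
    (hβ' : ∀ j, ENNReal.ofReal β ≤ ∫⁻ u in P, ENNReal.ofReal (B j u))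
    (R : Set (Fin n → ℂ)) (hR : MeasurableSet R) (hRO : R ⊆ Om P a) :
    ∫⁻ z in R, ENNReal.ofReal (MM A a z).det ≤
      (∫⁻ z in R, ENNReal.ofReal (MM B a z).det) +
        ENNReal.ofReal ((Fintype.card (Fin n → ι)) * (α ^ n - β ^ n) / n.factorial) := by
  classical
  have hfac : (0 : ℝ) < n.factorial := by exact_mod_cast n.factorial_pos
  have hpow : β ^ n ≤ α ^ n := pow_le_pow_left₀ hβ hαβ n
  -- the summands
  set D : (Fin n → ι) → ℝ := fun σ => (Matrix.of fun k => a (σ k)).det ^ 2 with hD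
  have hD0 : ∀ σ, 0 ≤ D σ := fun σ => sq_nonneg _
  set X : (Fin n → ι) → (Fin n → ℂ) → ℝ := fun σ u => ∏ k, A (σ k) (u k) - ∏ k, B (σ k) (u k)
    with hX
  set W : (Fin n → ι) → (Fin n → ℂ) → (Fin n → ℂ) := fun σ z k => uu (a (σ k)) z with hW
  set G : (Fin n → ι) → (Fin n → ℂ) → ℝ≥0∞ := fun σ z =>
    ENNReal.ofReal (X σ (W σ z)) * ENNReal.ofReal (D σ) * ENNReal.ofReal (1 / n.factorial) with hG
  have hXm : ∀ σ, Measurable (X σ) := by
    intro σ
    refine Measurable.sub ?_ ?_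
    · exact Finset.measurable_prod _ fun k _ => (hA (σ k)).comp (measurable_pi_apply k)
    · exact Finset.measurable_prod _ fun k _ => (hB (σ k)).comp (measurable_pi_apply k)
  have hWm : ∀ σ, Measurable (W σ) := fun σ =>
    measurable_pi_lambda _ fun k => E2_measurable_uu _
  have hGm : ∀ σ, Measurable (G σ) := fun σ =>
    (((hXm σ).comp (hWm σ)).ennreal_ofReal.mul_const _).mul_const _
  -- pointwise
  have hpt : ∀ z ∈ R, ENNReal.ofReal (MM A a z).det ≤
      ENNReal.ofReal (MM B a z).det + ∑ σ, G σ z := by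
    intro z hz
    have hzP : ∀ j, uu (a j) z ∈ P := fun j => hRO hz j
    have eA := hE1 (fun j => A j (uu (a j) z)) a
    have eB := hE1 (fun j => B j (uu (a j) z)) a
    have hXn : ∀ σ, 0 ≤ X σ (W σ z) := fun σ => by
      simp only [hX, hW, sub_nonneg]
      exact Finset.prod_le_prod (fun k _ => h0 _ _ (hzP _)) (fun k _ => hAB _ _ (hzP _))
    have e3 : (MM A a z).det = (MM B a z).det + ∑ σ, X σ (W σ z) * D σ * (1 / n.factorial) := by
      have eA' : (n.factorial : ℝ) * (MM A a z).det = ∑ σ, D σ * ∏ k, A (σ k) (W σ z k) := eA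
      have eB' : (n.factorial : ℝ) * (MM B a z).det = ∑ σ, D σ * ∏ k, B (σ k) (W σ z k) := eB
      have e4 : (n.factorial : ℝ) * (MM A a z).det
          = (n.factorial : ℝ) * ((MM B a z).det + ∑ σ, X σ (W σ z) * D σ * (1 / n.factorial)) := by
        rw [mul_add, eA', eB', Finset.mul_sum, ← Finset.sum_add_distrib]
        refine Finset.sum_congr rfl fun σ _ => ?_
        simp only [hX]
        field_simp
        ring
      exact mul_left_cancel₀ hfac.ne' e4
    rw [e3]
    refine ENNReal.ofReal_add_le.trans ?_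
    gcongr
    rw [ENNReal.ofReal_sum_of_nonneg (fun σ _ => by
      have := hXn σ; have := hD0 σ; positivity)]
    refine Finset.sum_le_sum fun σ _ => ?_
    rw [ENNReal.ofReal_mul (mul_nonneg (hXn σ) (hD0 σ)), ENNReal.ofReal_mul (hXn σ)]
  -- each summand
  have hsum : ∀ σ, ∫⁻ z in R, G σ z ≤ ENNReal.ofReal ((α ^ n - β ^ n) / n.factorial) := by
    intro σ
    by_cases hdet : (Matrix.of fun k => a (σ k)).det = 0
    · have : ∀ z, G σ z = 0 := by
        intro z
        simp [hG, hD, hdet]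
      simp only [this]
      simp
    · set F : (Fin n → ℂ) → ℝ≥0∞ := (Set.pi univ (fun _ : Fin n => P)).indicator
        (fun u => ENNReal.ofReal (X σ u) * ENNReal.ofReal (1 / n.factorial)) with hF
      have h1 : ∫⁻ z in R, G σ z ≤ ∫⁻ z, F (fun k => uu (a (σ k)) z) * ENNReal.ofReal (D σ) := by
        rw [← lintegral_indicator hR]
        refine lintegral_mono fun z => ?_
        by_cases hz : z ∈ R
        · rw [indicator_of_mem hz]
          have hm : (fun k => uu (a (σ k)) z) ∈ Set.pi univ (fun _ : Fin n => P) :=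
            fun k _ => hRO hz (σ k)
          simp only [hF, hG, hW]
          rw [indicator_of_mem hm]
          exact le_of_eq (by ring)
        · rw [indicator_of_notMem hz]
          exact bot_le
      refine h1.trans ?_
      rw [hC2 (fun k => a (σ k)) hdet F, hF, lintegral_indicator (MeasurableSet.univ_pi fun _ => hP),
        lintegral_mul_const _ (hXm σ).ennreal_ofReal,
        div_eq_mul_one_div (α ^ n - β ^ n) (n.factorial : ℝ),
        ENNReal.ofReal_mul (sub_nonneg.mpr hpow)]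
      gcongr
      exact E2_prod P hP A B hA hB h0 hAB α β hβ hαβ hα hβ' σ
  calc ∫⁻ z in R, ENNReal.ofReal (MM A a z).det
      ≤ ∫⁻ z in R, (ENNReal.ofReal (MM B a z).det + ∑ σ, G σ z) := setLIntegral_mono' hR hpt
    _ = (∫⁻ z in R, ENNReal.ofReal (MM B a z).det) + ∑ σ, ∫⁻ z in R, G σ z := by
        rw [lintegral_add_right _ (Finset.measurable_sum _ fun σ _ => hGm σ),
          lintegral_finsetSum _ fun σ _ => hGm σ]
    _ ≤ (∫⁻ z in R, ENNReal.ofReal (MM B a z).det) +
        ∑ _σ : Fin n → ι, ENNReal.ofReal ((α ^ n - β ^ n) / n.factorial) := by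
        gcongr with σ
        exact hsum σ
    _ = _ := by
        congr 1
        rw [Finset.sum_const, Finset.card_univ, nsmul_eq_mul, mul_div_assoc,
          ENNReal.ofReal_mul (Nat.cast_nonneg _), ENNReal.ofReal_natCast]

end

end Pool.Agent.H224R2.Mah
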